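import Pool.Agent.Work.MP_223b32_t3.Interface

/-!
# Block FLAR: the linear algebra of the relative version
-/

namespace Pool.Agent.Work.T3.FLAR

open Finset Polynomial TensorProduct Pool.Agent.Work.MP_223b32_ag Pool.Agent.Work.MP_223b32_ag_56
open Pool.Agent.Work.TC
open Module Filter Topology

/-- Balanced multisets are unions of pairs. -/
theorem balanced {q : ℂ} (hq : q ≠ 0) : ∀ (N : ℕ) (s : Multiset ℂ), s.card ≤ N →
    (∀ z ∈ s, z ≠ 0) → (∀ z ∈ s, z ^ 2 ≠ q) → (∀ z ∈ s, s.count (q / z) = s.count z) →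
    ∃ k, s.card = 2 * k ∧ s.prod = q ^ k := by
  classical
  intro N
  induction N with
  | zero =>
    intro s hs _ _ _
    have : s = 0 := Multiset.card_eq_zero.1 (by omega)
    subst this
    exact ⟨0, by simp, by simp⟩
  | succ N ih =>
    intro s hs h0 hne hbal
    rcases Multiset.empty_or_exists_mem s with rfl | ⟨z, hz⟩
    · exact ⟨0, by simp, by simp⟩
    have hz0 := h0 z hz
    have hqz : q / z ∈ s := by
      rw [← Multiset.count_pos, hbal z hz, Multiset.count_pos]
      exact hz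
    have hzne : q / z ≠ z := by
      intro h
      rw [div_eq_iff hz0] at h
      exact hne z hz (by rw [pow_two]; exact h.symm)
    obtain ⟨s', rfl⟩ := Multiset.exists_cons_of_mem hz
    obtain ⟨t, rfl⟩ := Multiset.exists_cons_of_mem ((Multiset.mem_cons.1 hqz).resolve_left hzne)
    obtain ⟨k, hk1, hk2⟩ := ih t (by
      rw [Multiset.card_cons, Multiset.card_cons] at hs
      omega)
      (fun w hw => h0 w (Multiset.mem_cons_of_mem (Multiset.mem_cons_of_mem hw)))
      (fun w hw => hne w (Multiset.mem_cons_of_mem (Multiset.mem_cons_of_mem hw)))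
      (fun w hw => by
        have hw' : w ∈ z ::ₘ (q / z) ::ₘ t :=
          Multiset.mem_cons_of_mem (Multiset.mem_cons_of_mem hw)
        have hw0 := h0 w hw'
        have h1 := hbal w hw'
        rw [Multiset.count_cons, Multiset.count_cons, Multiset.count_cons,
          Multiset.count_cons] at h1
        have e1 : (q / w = z) ↔ (w = q / z) := by
          rw [div_eq_iff hw0, eq_div_iff hz0, mul_comm z w]
          exact eq_comm
        have e2 : (q / w = q / z) ↔ (w = z) := by
          constructor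
          · intro h
            rw [div_eq_div_iff hw0 hz0] at h
            exact (mul_left_cancel₀ hq h).symm
          · rintro rfl; rfl
        simp only [e1, e2] at h1
        omega)
    refine ⟨k + 1, ?_, ?_⟩
    · rw [Multiset.card_cons, Multiset.card_cons, hk1]
      ring
    · rw [Multiset.prod_cons, Multiset.prod_cons, hk2, ← mul_assoc, mul_div_cancel₀ _ hz0,
        pow_succ']

/-- The key claim. -/
theorem key {q : ℕ} (hq : 1 < q) {P : ℂ → Prop} {A B J : ℕ}
    (hP : ∀ z, P z → z ^ 2 ≠ q) (hC : Clean q P A B J) {a : ℕ} (ha : a ≤ A) {z : ℂ}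
    (hz : Bounded q a B z) {s : Multiset ℂ} (hs : ∀ w ∈ s, P w) (hsJ : s.card ≤ 2 * J) {n c : ℕ}
    (hn : 0 < n) (hc : a + s.card = 2 * c) (hrel : (z * s.prod) ^ n = ((q : ℂ) ^ n) ^ c) :
    ∃ k, s.card = 2 * k ∧ s.prod = (q : ℂ) ^ k := by
  have hq0 : (q : ℂ) ≠ 0 := by
    have : q ≠ 0 := by omega
    exact_mod_cast this
  obtain ⟨a', ha', γ, hγ, M, hM, hzM⟩ := hz
  have h1 : (γ * s.prod) ^ (2 * (M * n)) = (q : ℂ) ^ (M * n * (a' + s.card)) := by
    have h2 : (z * s.prod) ^ (2 * M * n) = (q : ℂ) ^ (M * n * (a + s.card)) := by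
      rw [mul_comm (2 * M) n, pow_mul, hrel, ← pow_mul, ← pow_mul, hc]
      congr 1
      ring
    have h3 : (z * s.prod) ^ (2 * M * n) =
        (q : ℂ) ^ (M * n * (a - a')) * (γ * s.prod) ^ (2 * (M * n)) := by
      rw [pow_mul (z * s.prod), mul_pow z, hzM, mul_pow, mul_pow, mul_pow γ, ← pow_mul,
        ← pow_mul, ← pow_mul]
      have e1 : 2 * M * n = 2 * (M * n) := by ring
      have e2 : M * (a - a') * n = M * n * (a - a') := by ring
      rw [e1, e2]
      ring
    have h4 : (q : ℂ) ^ (M * n * (a + s.card)) =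
        (q : ℂ) ^ (M * n * (a - a')) * (q : ℂ) ^ (M * n * (a' + s.card)) := by
      rw [← pow_add, ← mul_add]
      congr 2
      omega
    rw [h3, h4] at h2
    exact mul_left_cancel₀ (pow_ne_zero _ hq0) h2
  have h5 := hC a' (ha'.trans ha) γ hγ s hs hsJ (M * n) (Nat.mul_pos hM hn) h1
  refine balanced hq0 _ s le_rfl ?_ (fun w hw => hP w (hs w hw)) (fun w hw => h5 w (hs w hw))
  rintro w hw rfl
  rw [Multiset.prod_eq_zero hw, mul_zero, zero_pow hn.ne'] at hrel
  exact pow_ne_zero _ (pow_ne_zero _ hq0) hrel.symm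

section Pole

open Classical in
/-- The order of the pole of a product. -/
theorem pole {Q : ℝ} (hQ : 1 < Q) (j : ℕ) (m : Multiset ℂ) :
    HasPoleOrder (fun s => ((m.map fun e => 1 - (Q : ℂ) ^ (-s) * e).prod)⁻¹) j
      (m.count ((Q : ℂ) ^ j)) := by
  induction m using Multiset.induction_on with
  | empty =>
    refine ⟨1, one_ne_zero, ?_⟩
    simp only [Multiset.count_zero, pow_zero, Multiset.map_zero, Multiset.prod_zero, inv_one,
      mul_one]
    exact tendsto_const_nhds
  | cons e m ih =>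
    obtain ⟨c, hc, hct⟩ := ih
    obtain ⟨c', hc', hct'⟩ := tendsto_factor Q hQ e j
    refine ⟨c' * c, mul_ne_zero hc' hc, ?_⟩
    refine (hct'.mul hct).congr fun x => ?_
    beta_reduce
    rw [Multiset.map_cons, Multiset.prod_cons, mul_inv, Multiset.count_cons]
    by_cases he : e = (Q : ℂ) ^ j
    · rw [if_pos he, if_pos he.symm, pow_succ]
      ring
    · rw [if_neg he, if_neg (Ne.symm he), add_zero]
      ring

/-- The order of the pole is unique. -/
theorem pole_unique {L : ℂ → ℂ} {s₀ : ℝ} {r r' : ℕ} (h : HasPoleOrder L s₀ r)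
    (h' : HasPoleOrder L s₀ r') : r = r' := by
  have key : ∀ {r r' : ℕ}, HasPoleOrder L s₀ r → HasPoleOrder L s₀ r' → ¬ r < r' := by
    rintro r r' ⟨c, hc, hct⟩ ⟨c', hc', hct'⟩ hlt
    have h1 : Tendsto (fun s : ℝ => (((s - s₀ : ℝ) : ℂ)) ^ (r' - r)) (𝓝[>] s₀) (𝓝 0) := by
      have h2 : Tendsto (fun s : ℝ => (((s - s₀ : ℝ) : ℂ)) ^ (r' - r)) (𝓝 s₀)
          (𝓝 ((((s₀ - s₀ : ℝ) : ℂ)) ^ (r' - r))) := by
        apply Continuous.tendsto
        fun_prop
      rw [sub_self, Complex.ofReal_zero, zero_pow (by omega)] at h2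
      exact h2.mono_left nhdsWithin_le_nhds
    have h3 := h1.mul hct
    rw [zero_mul] at h3
    have h4 : (fun s : ℝ => (((s - s₀ : ℝ) : ℂ)) ^ r' * L s) =
        fun s : ℝ => (((s - s₀ : ℝ) : ℂ)) ^ (r' - r) * ((((s - s₀ : ℝ) : ℂ)) ^ r * L s) := by
      funext s
      rw [← mul_assoc, ← pow_add]
      congr 2
      omega
    rw [h4] at hct'
    exact hc' (tendsto_nhds_unique hct' h3)
  have := key h h'
  have := key h' h
  omega

end Pole

section Det

variable {H W : Type} [AddCommGroup H] [Module ℂ H] [Module.Finite ℂ H] [AddCommGroup W]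
  [Module ℂ W]

/-- `det(1 - u φ)` in terms of the eigenvalues. -/
theorem det_one_sub (φ : Module.End ℂ H) (u : ℂ) :
    LinearMap.det (1 - u • φ) = (φ.charpoly.roots.map fun e => 1 - u * e).prod := by
  by_cases hu : u = 0
  · subst hu
    simp
  have h1 : (1 - u • φ) = u • (algebraMap ℂ (Module.End ℂ H) u⁻¹ - φ) := by
    rw [smul_sub, Algebra.algebraMap_eq_smul_one, smul_smul, mul_inv_cancel₀ hu, one_smul]
  have hsp : φ.charpoly.Splits := IsAlgClosed.splits _
  have h2 := hsp.eq_prod_roots_of_monic φ.charpoly_monic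
  have h3 : φ.charpoly.roots.card = finrank ℂ H := by
    rw [← hsp.natDegree_eq_card_roots, LinearMap.charpoly_natDegree]
  have h4 : eval u⁻¹ φ.charpoly = (φ.charpoly.roots.map fun e => u⁻¹ - e).prod := by
    have h5 := congrArg (eval u⁻¹) h2
    rw [eval_multiset_prod, Multiset.map_map] at h5
    simp only [Function.comp_def, eval_sub, eval_X, eval_C] at h5
    exact h5
  rw [h1, LinearMap.det_smul, ← LinearMap.eval_charpoly, ← h3, h4]
  rw [← Multiset.prod_replicate, ← Multiset.map_const', ← Multiset.prod_map_mul]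
  refine congrArg Multiset.prod (Multiset.map_congr rfl fun e _ => ?_)
  rw [mul_sub, mul_inv_cancel₀ hu]

variable {S : Type} [Fintype S] {e : Basis S ℂ W} {D : Module.End ℂ W} {ε : S → ℂ}

/-- The determinant for a diagonal second factor. -/
theorem det_tensor [DecidableEq S] (hD : ∀ s, D (e s) = ε s • e s) (φ : Module.End ℂ H) (u : ℂ) :
    LinearMap.det (1 - u • TensorProduct.map φ D) =
      ∏ s, LinearMap.det (1 - (u * ε s) • φ) := by
  classical
  set bH := Module.finBasis ℂ H with hbH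
  have hDm : LinearMap.toMatrix e e D = Matrix.diagonal ε := by
    ext s t
    rw [LinearMap.toMatrix_apply, hD, map_smul, Basis.repr_self, Finsupp.smul_apply,
      Finsupp.single_apply, Matrix.diagonal_apply, smul_eq_mul]
    by_cases hst : s = t
    · subst hst; simp
    · rw [if_neg hst, if_neg (Ne.symm hst)]; simp
  rw [← LinearMap.det_toMatrix (bH.tensorProduct e), map_sub, map_smul, TensorProduct.toMatrix_map,
    hDm, Matrix.kroneckerMap_diagonal_right _ (fun a => mul_zero a)]
  have h1 : LinearMap.toMatrix (bH.tensorProduct e) (bH.tensorProduct e)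
      (1 : Module.End ℂ (H ⊗[ℂ] W)) =
      Matrix.blockDiagonal fun _ : S => (1 : Matrix _ _ ℂ) := by
    rw [LinearMap.toMatrix_one]
    exact Matrix.blockDiagonal_one.symm
  rw [h1, ← Matrix.blockDiagonal_smul, ← Matrix.blockDiagonal_sub, Matrix.det_blockDiagonal]
  refine prod_congr rfl fun s _ => ?_
  rw [← LinearMap.det_toMatrix bH, map_sub, map_smul, LinearMap.toMatrix_one]
  congr 1
  ext x y
  simp only [Pi.sub_apply, Pi.smul_apply, Matrix.sub_apply, Matrix.smul_apply, Matrix.map_apply,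
    smul_eq_mul]
  ring

omit [Module.Finite ℂ H] in
/-- The kernel for a diagonal second factor. -/
theorem ker_tensor (hD : ∀ s, D (e s) = ε s • e s) (φ : Module.End ℂ H) (c : ℂ)
    {x : H ⊗[ℂ] W} (hx : TensorProduct.map φ D x = c • x) :
    ∃ h : S →₀ H, (h.sum fun s m => m ⊗ₜ[ℂ] e s) = x ∧ ∀ s, ε s • φ (h s) = c • h s := by
  classical
  obtain ⟨h, hh⟩ := TensorProduct.eq_repr_basis_right e x
  refine ⟨h, hh, ?_⟩
  set h' : S →₀ H := Finsupp.onFinset univ (fun s => ε s • φ (h s) - c • h s)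
    (fun _ _ => mem_univ _) with hh'
  have h1 : (h'.sum fun s m => m ⊗ₜ[ℂ] e s) = 0 := by
    rw [hh', Finsupp.onFinset_sum _ (fun s => by rw [TensorProduct.zero_tmul])]
    have h2 : ∑ s, (ε s • φ (h s) - c • h s) ⊗ₜ[ℂ] e s =
        TensorProduct.map φ D x - c • x := by
      rw [← hh, Finsupp.sum_fintype _ _ (fun s => by rw [TensorProduct.zero_tmul]), map_sum,
        smul_sum, ← sum_sub_distrib]
      refine sum_congr rfl fun s _ => ?_
      rw [TensorProduct.map_tmul, hD, TensorProduct.sub_tmul, TensorProduct.tmul_smul,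
        TensorProduct.smul_tmul', TensorProduct.smul_tmul']
    rw [h2, hx, sub_self]
  have h2 := TensorProduct.sum_tmul_basis_right_eq_zero e h' h1
  intro s
  have h3 := DFunLike.congr_fun h2 s
  rw [hh', Finsupp.onFinset_apply, Finsupp.zero_apply] at h3
  exact sub_eq_zero.1 h3

end Det

theorem mem_Tate {H : Type} [AddCommGroup H] [Module ℂ H] [Module.Finite ℂ H]
    {φ : Module.End ℂ H} {Q : ℂ} {i : ℕ} {x : H} : x ∈ Tate φ Q i ↔ φ x = Q ^ i • x := by
  rw [Tate, LinearMap.mem_ker, LinearMap.sub_apply, LinearMap.smul_apply, LinearMap.id_apply,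
    sub_eq_zero]

/-- Eigenvalues of powers. -/
theorem eig_pow {H : Type} [AddCommGroup H] [Module ℂ H] [Module.Finite ℂ H]
    (φ : Module.End ℂ H) {n : ℕ} (hn : 0 < n) {μ : ℂ} (h : (φ ^ n).HasEigenvalue μ) :
    ∃ z, φ.HasEigenvalue z ∧ z ^ n = μ := by
  rw [Module.End.hasEigenvalue_iff_mem_spectrum, spectrum.map_pow_of_pos φ hn] at h
  obtain ⟨z, hz, hzμ⟩ := h
  exact ⟨z, Module.End.hasEigenvalue_iff_mem_spectrum.2 hz, hzμ⟩

end Pool.Agent.Work.T3.FLAR

namespace Pool.Agent.Work.T3

open Finset Polynomial TensorProduct Pool.Agent.Work.MP_223b32_ag Pool.Agent.Work.MP_223b32_ag_56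
open Pool.Agent.Work.TC FLAR
open Module Filter Topology

theorem stmt_FLAR (hFLA : Stmt_FLA) : Stmt_FLAR := by
  classical
  intro V _ _ _ Φ hΦ q hq P A B J hB hP2 hC hV H _ _ _ φ a ha hφ b hb n hn
  have hq0 : (q : ℂ) ≠ 0 := by
    have : q ≠ 0 := by omega
    exact_mod_cast this
  have hQ1 : 1 < (q : ℝ) ^ n := one_lt_pow₀ (by exact_mod_cast hq) hn.ne'
  generalize hQ : (q : ℝ) ^ n = Q at hQ1 ⊢
  have hQC : (Q : ℂ) = (q : ℂ) ^ n := by rw [← hQ]; push_cast; rfl
  have hQ0 : (Q : ℂ) ≠ 0 := by rw [hQC]; exact pow_ne_zero _ hq0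
  have h1w : (1 : ℂ) ∈ weil q 0 B := by
    refine ⟨X - C 1, monic_X_sub_C 1, ?_, ?_, ?_⟩
    · rw [natDegree_X_sub_C]; exact hB
    · simp
    · intro z hz
      simp only [map_sub, aeval_X, map_one, sub_eq_zero] at hz
      rw [hz]
      simp
  have hcount : ∀ s : Multiset ℂ, (∀ z ∈ s, P z) → s.card ≤ 2 * J → ∀ M : ℕ, 0 < M →
      s.prod ^ (2 * M) = (q : ℂ) ^ (M * s.card) →
      ∀ z, P z → s.count ((q : ℂ) / z) = s.count z := by
    intro s hs hsJ M hM h
    exact hC 0 (Nat.zero_le _) 1 h1w s hs hsJ M hM (by rw [one_mul, zero_add]; exact h)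
  have hT2 : ∀ k ≤ J, tateClasses (Φ ^ n) (Q : ℂ) k = tateClasses (Φ ^ n) (Q : ℂ) 1 ^ k := by
    intro k hk
    have h := (hFLA V Φ hΦ q hq P J hcount n hn (fun μ hμ => Or.inl (hV μ hμ)) k hk).1
    rw [hQ] at h
    exact h
  obtain ⟨bV, lam, hbV⟩ := exists_eigenbasis hΦ
  have hG : ∀ i, (Φ ^ n) (bV i) = lam i ^ n • bV i := fun i => (hbV i).pow_apply n
  have hlam : ∀ i, P (lam i) := fun i => hV _ (End.hasEigenvalue_of_hasEigenvector (hbV i))
  set G : End ℂ V := Φ ^ n with hGdef
  set ψ : End ℂ H := φ ^ n with hψ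
  set μ : Fin (finrank ℂ V) → ℂ := fun i => lam i ^ n with hμ
  -- the eigenvalues
  have hclaim : ∀ {b c : ℕ}, b ≤ 2 * J → a + b = 2 * c → ∀ (s : Set.powersetCard
      (Fin (finrank ℂ V)) b) {z : ℂ}, φ.HasEigenvalue z → z ^ n * eig μ s = (Q : ℂ) ^ c →
      ∃ k, b = 2 * k ∧ eig μ s = (Q : ℂ) ^ k := by
    intro b c hb hc s z hz hrel
    set l := List.ofFn (Set.powersetCard.ofFinEmbEquiv.symm s) with hl
    have h1 : eig μ s = (((l.map lam : List ℂ) : Multiset ℂ).prod) ^ n := by
      rw [eig, ← hl, Multiset.prod_coe]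
      clear_value l
      clear hl hrel
      induction l with
      | nil => simp
      | cons x l ih =>
        rw [List.map_cons, List.map_cons, List.prod_cons, List.prod_cons, mul_pow, ih]
    have hcard : ((l.map lam : List ℂ) : Multiset ℂ).card = b := by
      rw [Multiset.coe_card, List.length_map, hl, List.length_ofFn]
    obtain ⟨k, hk1, hk2⟩ := key (s := ((l.map lam : List ℂ) : Multiset ℂ)) hq hP2 hC ha (hφ z hz)
      (by
        intro w hw
        rw [Multiset.mem_coe, List.mem_map] at hw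
        obtain ⟨i, -, rfl⟩ := hw
        exact hlam i) (by rw [hcard]; exact hb) hn (by rw [hcard]; exact hc)
      (by rw [mul_pow, ← h1, hrel, hQC])
    rw [hcard] at hk1
    refine ⟨k, hk1, ?_⟩
    rw [h1, hk2, hQC, ← pow_mul, ← pow_mul, mul_comm]
  have hroot : ∀ x ∈ ψ.charpoly.roots, ∃ z, φ.HasEigenvalue z ∧ z ^ n = x := by
    intro x hx
    refine eig_pow φ hn ?_
    rw [Module.End.hasEigenvalue_iff_isRoot_charpoly]
    exact isRoot_of_mem_roots hx
  have hcoord : ∀ {b c : ℕ} (s : Set.powersetCard (Fin (finrank ℂ V)) b) {h : H}, h ≠ 0 →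
      eig μ s • ψ h = (Q : ℂ) ^ c • h →
      ∃ z, φ.HasEigenvalue z ∧ z ^ n * eig μ s = (Q : ℂ) ^ c ∧
        ψ h = ((Q : ℂ) ^ c / eig μ s) • h := by
    intro b c s h hh hs
    have hε : eig μ s ≠ 0 := by
      intro h0
      rw [h0, zero_smul] at hs
      exact (smul_ne_zero (pow_ne_zero _ hQ0) hh) hs.symm
    have h1 : ψ h = ((Q : ℂ) ^ c / eig μ s) • h := by
      rw [div_eq_inv_mul, mul_smul, ← hs, smul_smul, inv_mul_cancel₀ hε, one_smul]
    obtain ⟨z, hz, hzn⟩ := eig_pow φ hn (μ := (Q : ℂ) ^ c / eig μ s)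
      (End.hasEigenvalue_of_hasEigenvector ⟨End.mem_eigenspace_iff.2 h1, hh⟩)
    exact ⟨z, hz, by rw [hzn, div_mul_cancel₀ _ hε], h1⟩
  -- the L-function
  have hLψ : ∀ s : ℂ, LL ψ Q s =
      ((ψ.charpoly.roots.map fun e => 1 - (Q : ℂ) ^ (-s) * e).prod)⁻¹ := by
    intro s
    rw [LL, det_one_sub]
  have hL : ∀ (b : ℕ) (s : ℂ), LL (Fr ψ G b) Q s =
      (((∑ t : Set.powersetCard (Fin (finrank ℂ V)) b,
        ψ.charpoly.roots.map fun e => eig μ t * e).map
          fun e => 1 - (Q : ℂ) ^ (-s) * e).prod)⁻¹ := by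
    intro b s
    rw [LL, Fr, det_tensor (e := bV.exteriorPower b) (fun t => map_basis hG t)]
    congr 1
    have h1 : (∑ t : Set.powersetCard (Fin (finrank ℂ V)) b,
        ψ.charpoly.roots.map fun e => eig μ t * e).map (fun e => 1 - (Q : ℂ) ^ (-s) * e) =
        ∑ t : Set.powersetCard (Fin (finrank ℂ V)) b,
          (ψ.charpoly.roots.map fun e => eig μ t * e).map (fun e => 1 - (Q : ℂ) ^ (-s) * e) :=
      map_sum (Multiset.mapAddMonoidHom fun e => 1 - (Q : ℂ) ^ (-s) * e) _ _
    rw [h1, Multiset.prod_sum]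
    refine prod_congr rfl fun t _ => ?_
    rw [det_one_sub, Multiset.map_map]
    refine congrArg Multiset.prod (Multiset.map_congr rfl fun e _ => ?_)
    simp only [Function.comp_apply]
    ring
  have hpole : ∀ (b c : ℕ), HasPoleOrder (LL (Fr ψ G b) Q) c
      (∑ t : Set.powersetCard (Fin (finrank ℂ V)) b,
        (ψ.charpoly.roots.map fun e => eig μ t * e).count ((Q : ℂ) ^ c)) := by
    intro b c
    have h1 := pole hQ1 c (∑ t : Set.powersetCard (Fin (finrank ℂ V)) b,
        ψ.charpoly.roots.map fun e => eig μ t * e)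
    rw [Multiset.count_sum'] at h1
    have h2 : LL (Fr ψ G b) Q = fun s : ℂ => (((∑ t : Set.powersetCard (Fin (finrank ℂ V)) b,
        ψ.charpoly.roots.map fun e => eig μ t * e).map
          fun e => 1 - (Q : ℂ) ^ (-s) * e).prod)⁻¹ := funext (hL b)
    rw [h2]
    exact h1
  refine ⟨?_, ?_⟩
  · -- even degrees
    rintro i k hai rfl
    have hkJ : k ≤ J := by omega
    have hac : a + 2 * k = 2 * (i + k) := by omega
    have hεk : ∀ (s : Set.powersetCard (Fin (finrank ℂ V)) (2 * k)) {z : ℂ}, φ.HasEigenvalue z →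
        z ^ n * eig μ s = (Q : ℂ) ^ (i + k) → eig μ s = (Q : ℂ) ^ k := by
      intro s z hz hrel
      obtain ⟨k', hk', hε⟩ := hclaim hb hac s hz hrel
      have : k' = k := by omega
      rw [hε, this]
    have hDiv : ∀ d : ⋀[ℂ]^(2 * k) V, d ∈ Div G Q k ↔ exteriorPower.map (2 * k) G d =
        (Q : ℂ) ^ k • d := by
      intro d
      rw [Div, Submodule.mem_comap, ← hT2 k hkJ, mem_tateClasses_iff]
      constructor
      · rintro ⟨-, h⟩
        apply Subtype.ext
        rw [coe_map_eq, SetLike.val_smul]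
        exact h
      · intro h
        refine ⟨d.2, ?_⟩
        have h2 := congrArg (fun x : ⋀[ℂ]^(2 * k) V => (x : ExteriorAlgebra ℂ V)) h
        simp only [coe_map_eq, SetLike.val_smul] at h2
        exact h2
    refine ⟨?_, ?_⟩
    · apply le_antisymm
      · intro x hx
        rw [Tate, LinearMap.mem_ker, LinearMap.sub_apply, LinearMap.smul_apply,
          LinearMap.id_apply, sub_eq_zero] at hx
        obtain ⟨h, hh, hco⟩ := ker_tensor (e := bV.exteriorPower (2 * k))
          (fun t => map_basis hG t) ψ _ hx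
        rw [← hh]
        refine Submodule.sum_mem _ fun s hs => ?_
        have hs0 : h s ≠ 0 := Finsupp.mem_support_iff.1 hs
        obtain ⟨z, hz, hzε, hψh⟩ := hcoord s hs0 (hco s)
        have hε := hεk s hz hzε
        have h1 : h s ∈ Tate ψ (Q : ℂ) i := by
          rw [Tate, LinearMap.mem_ker, LinearMap.sub_apply, LinearMap.smul_apply,
            LinearMap.id_apply, sub_eq_zero, hψh, hε, pow_add,
            mul_div_cancel_right₀ _ (pow_ne_zero _ hQ0)]
        have h2 : bV.exteriorPower (2 * k) s ∈ Div G (Q : ℂ) k := by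
          rw [hDiv, map_basis hG, hε]
        exact ⟨⟨h s, h1⟩ ⊗ₜ ⟨_, h2⟩, rfl⟩
      · rintro _ ⟨y, rfl⟩
        rw [Tate, LinearMap.mem_ker, LinearMap.sub_apply, LinearMap.smul_apply,
          LinearMap.id_apply, sub_eq_zero]
        induction y using TensorProduct.induction_on with
        | zero => simp
        | add x y hx hy => rw [map_add, map_add, hx, hy, smul_add]
        | tmul h d =>
          rw [TensorProduct.map_tmul, Fr, TensorProduct.map_tmul]
          have h1 : ψ (h : H) = (Q : ℂ) ^ i • (h : H) := mem_Tate.1 h.2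
          have h3 := (hDiv d).1 d.2
          simp only [Submodule.subtype_apply]
          rw [h1, h3, TensorProduct.smul_tmul_smul, ← pow_add]
    · intro r hr
      have h1 : r = ψ.charpoly.roots.count ((Q : ℂ) ^ i) := by
        refine pole_unique hr ?_
        have h2 := pole hQ1 i ψ.charpoly.roots
        have h3 : LL ψ Q = fun s : ℂ =>
            ((ψ.charpoly.roots.map fun e => 1 - (Q : ℂ) ^ (-s) * e).prod)⁻¹ := funext hLψ
        rw [h3]
        exact h2
      have h2 := hpole (2 * k) (i + k)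
      have h3 : ∀ t : Set.powersetCard (Fin (finrank ℂ V)) (2 * k),
          (ψ.charpoly.roots.map fun e => eig μ t * e).count ((Q : ℂ) ^ (i + k)) =
            if eig μ t = (Q : ℂ) ^ k then r else 0 := by
        intro t
        split_ifs with ht
        · rw [ht, h1, add_comm i k, pow_add]
          exact Multiset.count_map_eq_count' (fun e : ℂ => (Q : ℂ) ^ k * e) _
            (fun x y hxy => mul_left_cancel₀ (pow_ne_zero _ hQ0) hxy) _
        · rw [Multiset.count_eq_zero]
          intro hmem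
          obtain ⟨e, he, hee⟩ := Multiset.mem_map.1 hmem
          obtain ⟨z, hz, rfl⟩ := hroot e he
          exact ht (hεk t hz (by rw [mul_comm]; exact hee))
      rw [sum_congr rfl fun t _ => h3 t, ← sum_filter, sum_const, smul_eq_mul] at h2
      have h4 : finrank ℂ (Div G (Q : ℂ) k) =
          (univ.filter fun t : Set.powersetCard (Fin (finrank ℂ V)) (2 * k) =>
            eig μ t = (Q : ℂ) ^ k).card := by
        have h5 : finrank ℂ (Div G (Q : ℂ) k) = finrank ℂ (tateClasses G (Q : ℂ) k) := by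
          rw [Div, ← hT2 k hkJ]
          exact LinearEquiv.finrank_eq (Submodule.comapSubtypeEquivOfLe
            (inf_le_left : tateClasses G (Q : ℂ) k ≤ _))
        rw [h5, finrank_tateClasses hG, Fintype.card_subtype]
      rw [h4, mul_comm r]
      have h6 : ((i : ℝ) + k) = ((i + k : ℕ) : ℝ) := by push_cast; rfl
      rw [h6]
      exact h2
  · -- odd degrees
    intro c hodd hac
    have hno : ∀ (s : Set.powersetCard (Fin (finrank ℂ V)) b) {z : ℂ}, φ.HasEigenvalue z →
        z ^ n * eig μ s ≠ (Q : ℂ) ^ c := by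
      intro s z hz hrel
      obtain ⟨k, hk, -⟩ := hclaim hb hac s hz hrel
      obtain ⟨m, hm⟩ := hodd
      omega
    refine ⟨?_, ?_⟩
    · rw [eq_bot_iff]
      intro x hx
      rw [Tate, LinearMap.mem_ker, LinearMap.sub_apply, LinearMap.smul_apply,
        LinearMap.id_apply, sub_eq_zero] at hx
      obtain ⟨h, hh, hco⟩ := ker_tensor (e := bV.exteriorPower b)
        (fun t => map_basis hG t) ψ _ hx
      rw [Submodule.mem_bot, ← hh]
      refine Finset.sum_eq_zero fun s hs => ?_
      have hs0 : h s ≠ 0 := Finsupp.mem_support_iff.1 hs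
      obtain ⟨z, hz, hzε, -⟩ := hcoord s hs0 (hco s)
      exact absurd hzε (hno s hz)
    · have h2 := hpole b c
      have h3 : ∑ t : Set.powersetCard (Fin (finrank ℂ V)) b,
          (ψ.charpoly.roots.map fun e => eig μ t * e).count ((Q : ℂ) ^ c) = 0 := by
        refine sum_eq_zero fun t _ => ?_
        rw [Multiset.count_eq_zero]
        intro hmem
        obtain ⟨e, he, hee⟩ := Multiset.mem_map.1 hmem
        obtain ⟨z, hz, rfl⟩ := hroot e he
        exact hno t hz (by rw [mul_comm]; exact hee)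
      rw [h3] at h2
      exact h2

end Pool.Agent.Work.T3
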