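import Pool.Agent.Work.MP_223b32_tc.Defs

/-!
# Products with an arbitrary variety over a fixed finite field: definitions

`F` is a finite field with `q` elements, `Y` an arbitrary smooth projective variety over `F`; `H` is
one of its cohomology groups `H^a(Y)` (with complex coefficients) and `φ` the Frobenius
endomorphism of `H`.  `V` is the `H¹` of a product `X` of powers of Jacobians, `Φ` its Frobenius
endomorphism, so that `H ⊗ ⋀^b V` is a Künneth component of `H^(a + b)(Y × X)`.
-/

namespace Pool.Agent.Work.T3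

open Finset Polynomial TensorProduct Pool.Agent.Work.MP_223b32_ag Pool.Agent.Work.TC

/-- The `q`-Weil numbers of weight `a` and degree at most `B`: roots of a monic integral polynomial
of degree at most `B` with all its complex roots of absolute value `q ^ (a / 2)`. -/
def weil (q a B : ℕ) : Set ℂ :=
  {γ | ∃ P : ℤ[X], P.Monic ∧ P.natDegree ≤ B ∧ aeval γ P = 0 ∧
    ∀ z : ℂ, aeval z P = 0 → ‖z‖ ^ 2 = (q : ℝ) ^ a}

/-- Up to a root of unity and a power of `√q`, `z` (of absolute value `q ^ (a / 2)`) is a Weil number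
of degree at most `B`. -/
def Bounded (q a B : ℕ) (z : ℂ) : Prop :=
  ∃ a' ≤ a, ∃ γ ∈ weil q a' B, ∃ M : ℕ, 0 < M ∧
    z ^ (2 * M) = γ ^ (2 * M) * (q : ℂ) ^ (M * (a - a'))

section

variable {H V : Type} [AddCommGroup H] [Module ℂ H] [Module.Finite ℂ H] [AddCommGroup V]
  [Module ℂ V] [Module.Finite ℂ V]

/-- The Frobenius endomorphism of the Künneth component `H ⊗ ⋀^b V`. -/
noncomputable def Fr (φ : Module.End ℂ H) (G : Module.End ℂ V) (b : ℕ) :
    Module.End ℂ (H ⊗[ℂ] ⋀[ℂ]^b V) :=
  TensorProduct.map φ (exteriorPower.map b G)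

/-- The space of the classes on which the Frobenius endomorphism `φ` is `Q ^ i`. -/
noncomputable def Tate (φ : Module.End ℂ H) (Q : ℂ) (i : ℕ) : Submodule ℂ H :=
  LinearMap.ker (φ - Q ^ i • LinearMap.id)

/-- The space spanned by the products of `k` divisor classes (the classes in `⋀² V` on which `G` is
`Q`), as a subspace of `⋀^(2k) V`. -/
noncomputable def Div (G : Module.End ℂ V) (Q : ℂ) (k : ℕ) : Submodule ℂ (⋀[ℂ]^(2 * k) V) :=
  (tateClasses G Q 1 ^ k).comap (⋀[ℂ]^(2 * k) V).subtype

/-- `L(s) = det(1 - Q^(-s) φ)⁻¹`. -/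
noncomputable def LL (φ : Module.End ℂ H) (Q : ℝ) (s : ℂ) : ℂ :=
  (LinearMap.det (1 - ((Q : ℂ) ^ (-s)) • φ))⁻¹

/-- For `φ` the Frobenius endomorphism of `H = H^a(Y)` and `G` the Frobenius endomorphism of
`V = H¹(X)`, over the field with `Q` elements: the Tate classes in `H ⊗ ⋀^b V` are the sums of
products of Tate classes in `H` and of products of divisor classes of `X`, and the orders of the
poles multiply; in odd degrees there are no Tate classes and there is no pole. -/
def Indep (φ : Module.End ℂ H) (G : Module.End ℂ V) (Q : ℝ) (a b : ℕ) : Prop :=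
  (∀ i k : ℕ, a = 2 * i → b = 2 * k →
    Tate (Fr φ G (2 * k)) Q (i + k) =
      LinearMap.range (TensorProduct.map (Tate φ Q i).subtype (Div G Q k).subtype) ∧
    ∀ r : ℕ, HasPoleOrder (LL φ Q) i r →
      HasPoleOrder (LL (Fr φ G (2 * k)) Q) ((i : ℝ) + k)
        (r * Module.finrank ℂ (Div G Q k))) ∧
  (∀ c : ℕ, Odd a → a + b = 2 * c →
    Tate (Fr φ G b) Q c = ⊥ ∧ HasPoleOrder (LL (Fr φ G b) Q) c 0)

end

/-- The curves `y ^ 2 = f_t(x)` are independent of all varieties `Y` over `F` whose Frobenius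
eigenvalues have degree at most `B`: for all `a ≤ A`, `H = H^a(Y)`, and all `b ≤ 2 J`, over all
finite extensions of `F` (`n` is the degree of the extension). `V` is the `H¹` of a product of powers
of the Jacobians of the curves, `Φ` its (semisimple) Frobenius endomorphism. -/
def TateRel (F : Type) [Field F] [Fintype F] (A B J N : ℕ) {r : ℕ} (f : Fin r → F[X]) : Prop :=
  ∃ α : Fin r → Fin N → ℂ, (∀ t, IsFrob F (f t) (α t)) ∧
    ∀ (V : Type) [AddCommGroup V] [Module ℂ V] [Module.Finite ℂ V] (Φ : Module.End ℂ V),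
      Φ.IsSemisimple → (∀ μ, Φ.HasEigenvalue μ → ∃ t i, μ = α t i) →
    ∀ (H : Type) [AddCommGroup H] [Module ℂ H] [Module.Finite ℂ H] (φ : Module.End ℂ H),
    ∀ a ≤ A, (∀ z, φ.HasEigenvalue z → Bounded (Fintype.card F) a B z) →
    ∀ b ≤ 2 * J, ∀ n : ℕ, 0 < n →
      Indep (φ ^ n) (Φ ^ n) ((Fintype.card F : ℝ) ^ n) a b

/-- The `r`-tuples of monic irreducible polynomials of degree `n` without this property. -/
def exceptional (F : Type) [Field F] [Fintype F] (n r A B J : ℕ) : Set (Fin r → F[X]) :=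
  {f | (∀ t, f t ∈ irr F n) ∧ ¬ TateRel F A B J (n - 1) f}

end Pool.Agent.Work.T3
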