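import Pool.Agent.Work.MP_223b32_t3.Defs
import Pool.Agent.Work.MP_223b32_tc.Interface

/-!
# Products with an arbitrary variety over a fixed finite field: interface
-/

namespace Pool.Agent.Work.T3

open Finset Polynomial TensorProduct Pool.Agent.Work.MP_223b32_ag Pool.Agent.Work.TC

/-- No unbalanced relations of length at most `2 J` between the numbers with `P` and the Weil numbers
of weight at most `A` and degree at most `B`. -/
def Clean (q : ℕ) (P : ℂ → Prop) (A B J : ℕ) : Prop :=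
  ∀ a ≤ A, ∀ γ ∈ weil q a B, ∀ s : Multiset ℂ, (∀ z ∈ s, P z) → s.card ≤ 2 * J →
    ∀ M : ℕ, 0 < M → (γ * s.prod) ^ (2 * M) = (q : ℂ) ^ (M * (a + s.card)) →
      ∀ z, P z → s.count ((q : ℂ) / z) = s.count z

/-- GAM: the number of Weil numbers of bounded degree. -/
def Stmt_GAM : Prop :=
  ∀ q A B : ℕ, 3 ≤ q → ∃ Γ : Finset ℂ, (∀ a ≤ A, weil q a B ⊆ Γ) ∧
    Γ.card ≤ q ^ ((A + 2) * (B + 1) ^ 2)

/-- FLAR (from FLA): the linear algebra. -/
def Stmt_FLAR : Prop :=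
  ∀ (V : Type) [AddCommGroup V] [Module ℂ V] [Module.Finite ℂ V] (Φ : Module.End ℂ V),
    Φ.IsSemisimple → ∀ (q : ℕ), 1 < q → ∀ (P : ℂ → Prop) (A B J : ℕ), 1 ≤ B →
    (∀ z, P z → z ^ 2 ≠ q) → Clean q P A B J → (∀ μ, Φ.HasEigenvalue μ → P μ) →
    ∀ (H : Type) [AddCommGroup H] [Module ℂ H] [Module.Finite ℂ H] (φ : Module.End ℂ H),
    ∀ a ≤ A, (∀ z, φ.HasEigenvalue z → Bounded q a B z) →
    ∀ b ≤ 2 * J, ∀ n : ℕ, 0 < n → Indep (φ ^ n) (Φ ^ n) ((q : ℝ) ^ n) a b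

/-- MOD8R (from RU): a multiplicative relation gives a linear relation in characteristic `2`, with a
constant depending only on `γ`, `a` and `v`. -/
def Stmt_MOD8R : Prop :=
  ∀ (ρ : integralClosure ℤ ℂ →+* AlgebraicClosure (ZMod 2)) (N q : ℕ), Even N → Odd q →
    ∀ (a : ℕ) (γ : ℂ), ∃ c' : ℕ → AlgebraicClosure (ZMod 2),
    ∀ (T : ℕ) (r : Fin T → ℕ → ℕ) (β : Fin T → Fin N → ℂ)
      (β' w : Fin T → Fin N → integralClosure ℤ ℂ),
      (∀ t i, (β' t i : ℂ) = β t i) →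
      (∀ t i, β' t i ^ (N + 1) = 1 + 2 * w t i) →
      (∀ t i, ρ (w t i) = ZZ (N + 1) (r t) (ρ (β' t i))) →
      (∀ t i, ρ (β' t i) ^ (N + 1) = 1 ∧ ρ (β' t i) ≠ 1) →
      (∀ t, Function.Injective fun i => ρ (β' t i)) →
      (∀ t i, ∃ j, β t i * β t j = q) →
      ∀ s : Multiset ℂ, (∀ z ∈ s, ∃ t i, z = β t i) → ∀ M : ℕ, 0 < M →
        (γ * s.prod) ^ (2 * M) = (q : ℂ) ^ (M * (a + s.card)) →
        (∀ t i, s.count ((q : ℂ) / β t i) = s.count (β t i)) ∨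
        ∃ (v : ℕ) (I : Fin T → Finset (AlgebraicClosure (ZMod 2))), 2 ^ v ≤ s.card ∧
          (∃ t, (I t).Nonempty) ∧ ∑ t, (I t).card ≤ s.card ∧ (∀ t, Adm (N + 1) (I t)) ∧
          ∑ t, ∑ ζ ∈ I t, (ZZ (N + 1) (r t) ζ + ZZ (N + 1) (r t) ζ ^ 2) =
            ((∑ t, (I t).card * kap (q ^ (N + 1)) : ℕ) : AlgebraicClosure (ZMod 2)) + c' v

/-- The bad tuples of elements of `K`. -/
def Bad (F : Type) {K : Type} [Field F] [Fintype F] [Field K] [Fintype K] [Algebra F K]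
    (A B J N : ℕ) {T : ℕ} (a : Fin T → K) : Prop :=
  ¬ TateRel F A B J N fun t => minpoly F (a t)

/-- ONER (from FROB, B4, FE, RHO, RED, MOD8R, STAR, DSYM, FLAR): a bad tuple satisfies one of the
linear conditions, in the field with `2 ^ m` elements. -/
def Stmt_ONER : Prop :=
  ∀ (F K : Type) [Field F] [Fintype F] [Field K] [Fintype K] [DecidableEq K] [Algebra F K],
    ringChar F ≠ 2 → ∀ n : ℕ, n.Prime → n ≠ 2 → Module.finrank F K = n →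
    ∀ (G : Type) [Field G] [Fintype G] [Algebra (ZMod 2) G],
      Fintype.card G = 2 ^ orderOf (2 : ZMod n) → ∀ T A B J : ℕ, 1 ≤ B →
      ∀ Γ : Finset ℂ, (∀ a ≤ A, weil (Fintype.card F) a B ⊆ Γ) →
      ∃ c' : ℂ → ℕ → (Fin T → Finset G) → G,
      ∀ a : Fin T → K, (∀ t, a t ∉ (algebraMap F K).range) → Bad F A B J (n - 1) a →
        ∃ γ ∈ Γ, ∃ (v : ℕ) (I : Fin T → Finset G), 2 ^ v ≤ 2 * J ∧ (∃ t, (I t).Nonempty) ∧
          ∑ t, (I t).card ≤ 2 * J ∧ (∀ t, Adm n (I t)) ∧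
          ∑ t, ∑ k ∈ Icc 1 (n / 2), (dl F (a t) k : G) * cc n (I t) k = c' γ v I

/-- SUMR (from ONER, GAM, LIN, COUNT): the union bound. -/
def Stmt_SUMR : Prop :=
  ∀ (F K : Type) [Field F] [Fintype F] [Field K] [Fintype K] [Algebra F K],
    ringChar F ≠ 2 → ∀ n : ℕ, n.Prime → n ≠ 2 → Module.finrank F K = n → ∀ T A B J : ℕ, 1 ≤ T →
    1 ≤ B → 1 ≤ J →
      (Nat.card {a : Fin T → K // (∀ t, a t ∉ (algebraMap F K).range) ∧
        Bad F A B J (n - 1) a} : ℝ) ≤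
        40 * J * (Fintype.card F : ℝ) ^ ((A + 2) * (B + 1) ^ 2) * ((n : ℝ) * T) ^ (2 * J) *
          2 ^ (-(orderOf (2 : ZMod n) : ℝ) / (8 * J)) *
          (Nat.card {a : K // a ∉ (algebraMap F K).range} : ℝ) ^ T

end Pool.Agent.Work.T3
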