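import Pool.Agent.Work.MP_223b32_t3.Interface
import Pool.Agent.Work.MP_223b32_tc.MOD8

/-!
# Block MOD8R: a multiplicative relation gives a linear relation in characteristic `2`, relative form
-/

namespace Pool.Agent.Work.T3.MOD8R

open Finset Polynomial Pool.Agent.Work.MP_223b32_ag Pool.Agent.Work.TC Pool.Agent.Work.TC.MOD8

/-- Removal of the trivial part of a relation. -/
theorem relation {q : ℕ} (hq : q ≠ 0) (Z : Finset ℂ) (hσ : ∀ z ∈ Z, (q : ℂ) / z ∈ Z)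
    (h0 : ∀ z ∈ Z, z ≠ 0) (s : Multiset ℂ) (hs : ∀ z ∈ s, z ∈ Z) {M a : ℕ} {γ : ℂ}
    (h : (γ * s.prod) ^ (2 * M) = (q : ℂ) ^ (M * (a + s.card))) :
    (γ * ∏ z ∈ Z, z ^ (s.count z - s.count ((q : ℂ) / z))) ^ (2 * M) =
      (q : ℂ) ^ (M * (a + ∑ z ∈ Z, (s.count z - s.count ((q : ℂ) / z)))) := by
  have hq0 : (q : ℂ) ≠ 0 := by exact_mod_cast hq
  set c : ℂ → ℕ := fun z => s.count z with hc
  set mm : ℂ → ℕ := fun z => min (c z) (c ((q : ℂ) / z)) with hmm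
  set d : ℂ → ℕ := fun z => c z - c ((q : ℂ) / z) with hd
  have hcd : ∀ z, c z = mm z + d z := by
    intro z
    simp only [hmm, hd]
    omega
  have hσσ : ∀ z ∈ Z, (q : ℂ) / ((q : ℂ) / z) = z := by
    intro z hz
    rw [div_div_cancel₀ hq0]
  have hmσ : ∀ z ∈ Z, mm ((q : ℂ) / z) = mm z := by
    intro z hz
    simp only [hmm]
    rw [hσσ z hz, min_comm]
  have hprod : s.prod = (∏ z ∈ Z, z ^ mm z) * ∏ z ∈ Z, z ^ d z := by
    rw [prod_multiset_count_of_subset s Z (fun z hz => hs z (Multiset.mem_toFinset.1 hz)),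
      ← prod_mul_distrib]
    refine prod_congr rfl fun z _ => ?_
    rw [← pow_add, ← hcd]
  have hcard : s.card = ∑ z ∈ Z, mm z + ∑ z ∈ Z, d z := by
    rw [← Multiset.sum_count_eq_card (s := Z) hs, ← sum_add_distrib]
    exact sum_congr rfl fun z _ => hcd z
  have hA : (∏ z ∈ Z, z ^ mm z) ^ 2 = (q : ℂ) ^ ∑ z ∈ Z, mm z := by
    have h1 : ∏ z ∈ Z, z ^ mm z = ∏ z ∈ Z, ((q : ℂ) / z) ^ mm z := by
      refine prod_nbij' (fun z => (q : ℂ) / z) (fun z => (q : ℂ) / z) hσ hσ hσσ hσσ ?_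
      intro z hz
      rw [hσσ z hz, hmσ z hz]
    rw [pow_two]
    nth_rewrite 2 [h1]
    rw [← prod_mul_distrib, ← prod_pow_eq_pow_sum]
    refine prod_congr rfl fun z hz => ?_
    rw [← mul_pow, mul_div_cancel₀ _ (h0 z hz)]
  have h1 : (∏ z ∈ Z, z ^ mm z) ^ (2 * M) = (q : ℂ) ^ (M * ∑ z ∈ Z, mm z) := by
    rw [pow_mul, hA, ← pow_mul, mul_comm]
  have h2 : (γ * s.prod) ^ (2 * M) = (∏ z ∈ Z, z ^ mm z) ^ (2 * M) *
      (γ * ∏ z ∈ Z, z ^ d z) ^ (2 * M) := by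
    rw [hprod, ← mul_pow]
    congr 1
    ring
  have h3 : (q : ℂ) ^ (M * (a + s.card)) = (q : ℂ) ^ (M * ∑ z ∈ Z, mm z) *
      (q : ℂ) ^ (M * (a + ∑ z ∈ Z, d z)) := by
    rw [hcard, ← pow_add]
    congr 1
    ring
  rw [h2, h3, h1] at h
  exact mul_left_cancel₀ (pow_ne_zero _ hq0) h

/-- A solution, for `γ`, `a` and `v`. -/
def Sol (q n a v : ℕ) (γ : ℂ) (Z : Finset ℂ) (e : ℂ → ℕ)
    (B W : ℂ → integralClosure ℤ ℂ) : Prop :=
  (∀ z ∈ Z, (B z : ℂ) = z) ∧ (∀ z ∈ Z, B z ^ n = 1 + 2 * W z) ∧ ∃ K : ℕ, 0 < K ∧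
    (γ * (∏ z ∈ Z, z ^ e z) ^ 2 ^ v) ^ (2 * K) = (q : ℂ) ^ (K * (a + 2 ^ v * ∑ z ∈ Z, e z))

/-- The data of a solution. -/
theorem sol_data (ρ : integralClosure ℤ ℂ →+* AlgebraicClosure (ZMod 2))
    {q n a v : ℕ} (hq : Odd q) {γ : ℂ} {Z : Finset ℂ} {e : ℂ → ℕ}
    {B W : ℂ → integralClosure ℤ ℂ} (h : Sol q n a v γ Z e B W) :
    γ ≠ 0 ∧ ∃ S R : integralClosure ℤ ℂ,
      ρ S = ∑ z ∈ Z, (e z : AlgebraicClosure (ZMod 2)) * (ρ (W z) + ρ (W z) ^ 2) ∧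
      ρ R = ((∑ z ∈ Z, e z : ℕ) : AlgebraicClosure (ZMod 2)) *
        ((kap (q ^ n) : ℕ) : AlgebraicClosure (ZMod 2)) ∧
      (1 : ℂ) + 4 * (S : ℂ) ≠ 0 ∧ (1 : ℂ) + 4 * (R : ℂ) ≠ 0 ∧
      ∃ L : ℕ, 0 < L ∧ (γ ^ (2 * n) * (1 + 4 * (S : ℂ)) ^ 2 ^ v) ^ L =
        ((q : ℂ) ^ (n * a) * (1 + 4 * (R : ℂ)) ^ 2 ^ v) ^ L := by
  obtain ⟨hB, hW, K, hK, hrel⟩ := h
  have c2 : ((2 : integralClosure ℤ ℂ) : ℂ) = 2 := rfl
  have c4 : ((4 : integralClosure ℤ ℂ) : ℂ) = 4 := rfl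
  have hq0 : (q : ℂ) ≠ 0 := by
    have : q ≠ 0 := hq.pos.ne'
    exact_mod_cast this
  set E : ℕ := ∑ z ∈ Z, e z with hE
  set PP : ℂ := ∏ z ∈ Z, z ^ e z with hPi
  have hγ : γ ≠ 0 := by
    rintro rfl
    rw [zero_mul, zero_pow (by omega)] at hrel
    exact pow_ne_zero _ hq0 hrel.symm
  have hPP : PP ≠ 0 := by
    intro h0
    rw [h0, zero_pow (by positivity), mul_zero, zero_pow (by omega)] at hrel
    exact pow_ne_zero _ hq0 hrel.symm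
  obtain ⟨σ, k, hσ, hQ, hk⟩ := kap_spec (q ^ n) hq.pow
  have hσ2 : σ ^ 2 = 1 := by rcases hσ with h | h <;> rw [h] <;> norm_num
  set Y : ℂ → integralClosure ℤ ℂ := fun z => W z + W z ^ 2 with hY
  obtain ⟨U, hU⟩ := prod_form Z Y e
  obtain ⟨V, hV⟩ := pow_form (k : integralClosure ℤ ℂ) E
  have h1 : ((∏ z ∈ Z, (1 + 4 * Y z) ^ e z : integralClosure ℤ ℂ) : ℂ) = (PP ^ 2) ^ n := by
    rw [hPi, ← pow_mul, ← prod_pow]
    push_cast
    refine prod_congr rfl fun z hz => ?_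
    have h2 : ((B z ^ n : integralClosure ℤ ℂ) : ℂ) = ((1 + 2 * W z : integralClosure ℤ ℂ) : ℂ) :=
      by rw [hW z hz]
    push_cast at h2
    rw [hB z hz, c2] at h2
    rw [← pow_mul, show e z * (2 * n) = n * 2 * e z by ring, pow_mul, pow_mul, h2]
    congr 1
    simp only [hY]
    push_cast
    rw [c4]
    ring
  have hQC : (q : ℂ) ^ n = (σ : ℂ) * (1 + 4 * (k : ℂ)) := by exact_mod_cast hQ
  have hV' : ((1 : ℂ) + 4 * (k : ℂ)) ^ E = 1 + 4 * (E * (k : ℂ) + 2 * (V : ℂ)) := by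
    have h4 := congrArg (fun x : integralClosure ℤ ℂ => (x : ℂ)) hV
    push_cast at h4
    exact h4
  have hσC : ((σ : ℂ)) ^ 2 = 1 := by exact_mod_cast hσ2
  have hσ0 : (σ : ℂ) ≠ 0 := by
    intro h0
    rw [h0] at hσC
    norm_num at hσC
  set S : integralClosure ℤ ℂ := ∑ z ∈ Z, (e z : integralClosure ℤ ℂ) * Y z + 2 * U with hS
  set R : integralClosure ℤ ℂ := (E : integralClosure ℤ ℂ) * (k : integralClosure ℤ ℂ) + 2 * V
    with hR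
  have hRC : (R : ℂ) = E * (k : ℂ) + 2 * (V : ℂ) := by rw [hR]; push_cast; rfl
  have hSC : (1 : ℂ) + 4 * (S : ℂ) = (PP ^ 2) ^ n := by
    rw [← h1, hU]
    push_cast
    rw [c4]
  have hRC' : (q : ℂ) ^ (n * E) = (σ : ℂ) ^ E * (1 + 4 * (R : ℂ)) := by
    rw [pow_mul, hQC, mul_pow, hV', hRC]
  have h2 : (2 : AlgebraicClosure (ZMod 2)) = 0 := CharTwo.two_eq_zero
  have hρ2 : ρ 2 = 0 := by rw [map_ofNat]; exact h2
  have h12 : ((k : ℤ) : AlgebraicClosure (ZMod 2)) = ((kap (q ^ n) : ℕ) : _) := by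
    have h13 := (CharP.intCast_eq_intCast (AlgebraicClosure (ZMod 2)) 2 (a := k)
      (b := (kap (q ^ n) : ℤ))).2 (by exact_mod_cast hk)
    rw [h13]
    push_cast
    rfl
  refine ⟨hγ, S, R, ?_, ?_, ?_, ?_, 2 * K, by omega, ?_⟩
  · rw [hS, map_add, map_mul ρ 2 U, hρ2, zero_mul, add_zero, map_sum]
    refine sum_congr rfl fun z _ => ?_
    rw [map_mul, map_natCast]
    simp only [hY, map_add, map_pow]
  · rw [hR, map_add, map_mul ρ 2 V, hρ2, zero_mul, add_zero, map_mul, map_natCast, map_intCast,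
      h12]
  · rw [hSC]
    exact pow_ne_zero _ (pow_ne_zero _ hPP)
  · intro h0
    rw [h0, mul_zero] at hRC'
    exact pow_ne_zero _ hq0 hRC'
  · have h3 : (γ * PP ^ 2 ^ v) ^ (2 * K * (2 * n)) = (q : ℂ) ^ (K * (a + 2 ^ v * E) * (2 * n)) := by
      rw [pow_mul, hrel, ← pow_mul]
    have h4 : (γ ^ (2 * n) * (1 + 4 * (S : ℂ)) ^ 2 ^ v) ^ (2 * K) =
        (γ * PP ^ 2 ^ v) ^ (2 * K * (2 * n)) := by
      rw [hSC, mul_pow, mul_pow, ← pow_mul, ← pow_mul, ← pow_mul, ← pow_mul, ← pow_mul]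
      congr 1
      · congr 1; ring
      · congr 1; ring
    have h5 : ((q : ℂ) ^ (n * a) * (1 + 4 * (R : ℂ)) ^ 2 ^ v) ^ (2 * K) =
        (q : ℂ) ^ (K * (a + 2 ^ v * E) * (2 * n)) := by
      have h6 : (1 : ℂ) + 4 * (R : ℂ) = (q : ℂ) ^ (n * E) / (σ : ℂ) ^ E := by
        rw [hRC', mul_div_cancel_left₀ _ (pow_ne_zero _ hσ0)]
      rw [h6, div_pow, mul_pow, div_pow, ← pow_mul (σ : ℂ), ← pow_mul (σ : ℂ),
        show E * 2 ^ v * (2 * K) = 2 * (E * 2 ^ v * K) by ring, pow_mul (σ : ℂ), hσC, one_pow,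
        div_one, ← pow_mul, ← pow_mul, ← pow_mul, ← pow_add]
      congr 1
      ring
    rw [h4, h5, h3]

/-- Two solutions. -/
theorem sol_two (hRU : Stmt_RU) (ρ : integralClosure ℤ ℂ →+* AlgebraicClosure (ZMod 2))
    {v : ℕ} {g Q : ℂ} (hg : g ≠ 0) (hQ : Q ≠ 0)
    {S₀ R₀ S₁ R₁ : integralClosure ℤ ℂ}
    (hR₀ : (1 : ℂ) + 4 * (R₀ : ℂ) ≠ 0) (hS₁ : (1 : ℂ) + 4 * (S₁ : ℂ) ≠ 0) {L₀ L₁ : ℕ}
    (hL₀ : 0 < L₀) (hL₁ : 0 < L₁)
    (h₀ : (g * (1 + 4 * (S₀ : ℂ)) ^ 2 ^ v) ^ L₀ = (Q * (1 + 4 * (R₀ : ℂ)) ^ 2 ^ v) ^ L₀)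
    (h₁ : (g * (1 + 4 * (S₁ : ℂ)) ^ 2 ^ v) ^ L₁ = (Q * (1 + 4 * (R₁ : ℂ)) ^ 2 ^ v) ^ L₁) :
    ρ S₀ + ρ R₁ = ρ S₁ + ρ R₀ := by
  have c4 : ((4 : integralClosure ℤ ℂ) : ℂ) = 4 := rfl
  set L : ℕ := L₀ * L₁ with hL
  have hLpos : 0 < L := Nat.mul_pos hL₀ hL₁
  have h2 : ((1 + 4 * (S₀ : ℂ)) * (1 + 4 * (R₁ : ℂ))) ^ (2 ^ v * L) =
      ((1 + 4 * (S₁ : ℂ)) * (1 + 4 * (R₀ : ℂ))) ^ (2 ^ v * L) := by
    have h3 : (g * (1 + 4 * (S₀ : ℂ)) ^ 2 ^ v) ^ L = (Q * (1 + 4 * (R₀ : ℂ)) ^ 2 ^ v) ^ L := by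
      rw [hL, pow_mul, pow_mul, h₀]
    have h4 : (g * (1 + 4 * (S₁ : ℂ)) ^ 2 ^ v) ^ L = (Q * (1 + 4 * (R₁ : ℂ)) ^ 2 ^ v) ^ L := by
      rw [hL, mul_comm L₀, pow_mul, pow_mul, h₁]
    have h5 : (g * (1 + 4 * (S₀ : ℂ)) ^ 2 ^ v) ^ L * (Q * (1 + 4 * (R₁ : ℂ)) ^ 2 ^ v) ^ L =
        (Q * (1 + 4 * (R₀ : ℂ)) ^ 2 ^ v) ^ L * (g * (1 + 4 * (S₁ : ℂ)) ^ 2 ^ v) ^ L := by
      rw [h3, h4]
    have h6 : (g * Q) ^ L ≠ 0 := pow_ne_zero _ (mul_ne_zero hg hQ)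
    apply mul_left_cancel₀ h6
    rw [pow_mul _ (2 ^ v) L, pow_mul _ (2 ^ v) L]
    calc (g * Q) ^ L * (((1 + 4 * (S₀ : ℂ)) * (1 + 4 * (R₁ : ℂ))) ^ 2 ^ v) ^ L
        = (g * (1 + 4 * (S₀ : ℂ)) ^ 2 ^ v) ^ L * (Q * (1 + 4 * (R₁ : ℂ)) ^ 2 ^ v) ^ L := by
          rw [← mul_pow, ← mul_pow]
          congr 1
          rw [mul_pow (1 + 4 * (S₀ : ℂ))]
          ring
      _ = (Q * (1 + 4 * (R₀ : ℂ)) ^ 2 ^ v) ^ L * (g * (1 + 4 * (S₁ : ℂ)) ^ 2 ^ v) ^ L := h5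
      _ = (g * Q) ^ L * (((1 + 4 * (S₁ : ℂ)) * (1 + 4 * (R₀ : ℂ))) ^ 2 ^ v) ^ L := by
          rw [← mul_pow, ← mul_pow]
          congr 1
          rw [mul_pow (1 + 4 * (S₁ : ℂ))]
          ring
  set X₀ : integralClosure ℤ ℂ := S₀ + R₁ + 4 * S₀ * R₁ with hX₀
  set X₁ : integralClosure ℤ ℂ := S₁ + R₀ + 4 * S₁ * R₀ with hX₁
  have e₀ : (1 + 4 * (S₀ : ℂ)) * (1 + 4 * (R₁ : ℂ)) = 1 + 4 * (X₀ : ℂ) := by
    rw [hX₀]; push_cast; rw [c4]; ring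
  have e₁ : (1 + 4 * (S₁ : ℂ)) * (1 + 4 * (R₀ : ℂ)) = 1 + 4 * (X₁ : ℂ) := by
    rw [hX₁]; push_cast; rw [c4]; ring
  have hX₁0 : (1 : ℂ) + 4 * (X₁ : ℂ) ≠ 0 := by
    rw [← e₁]; exact mul_ne_zero hS₁ hR₀
  rw [e₀, e₁] at h2
  set ω : ℂ := (1 + 4 * (X₀ : ℂ)) / (1 + 4 * (X₁ : ℂ)) with hω
  have hNpos : 0 < 2 ^ v * L := Nat.mul_pos (by positivity) hLpos
  have hωK : ω ^ (2 ^ v * L) = 1 := by
    rw [hω, div_pow, h2, div_self (pow_ne_zero _ hX₁0)]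
  have hint : IsIntegral ℤ ω := by
    refine IsIntegral.of_pow hNpos ?_
    rw [hωK]
    exact isIntegral_one
  have hωX : ω * (1 + 4 * (X₁ : ℂ)) = 1 + 4 * (X₀ : ℂ) := div_mul_cancel₀ _ hX₁0
  set ωA : integralClosure ℤ ℂ := ⟨ω, hint⟩ with hωA
  have h7 : ω = 1 + 4 * ((X₀ - X₁ * ωA : integralClosure ℤ ℂ) : ℂ) := by
    push_cast
    have h8 : ((ωA : integralClosure ℤ ℂ) : ℂ) = ω := rfl
    rw [h8]
    linear_combination hωX
  have h8 : ω = 1 := hRU ω (2 ^ v * L) hNpos hωK _ h7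
  have h9 : X₀ = X₁ := by
    apply Subtype.ext
    rw [h8, one_mul] at hωX
    have h10 : (4 : ℂ) * (X₀ : ℂ) = 4 * (X₁ : ℂ) := by linear_combination -hωX
    exact mul_left_cancel₀ (by norm_num) h10
  have h11 := congrArg ρ h9
  have h2' : (2 : AlgebraicClosure (ZMod 2)) = 0 := CharTwo.two_eq_zero
  have hρ4 : ρ 4 = 0 := by
    rw [map_ofNat]
    have : (4 : AlgebraicClosure (ZMod 2)) = 2 * 2 := by norm_num
    rw [this, h2', mul_zero]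
  rw [hX₀, hX₁] at h11
  simp only [map_add, map_mul, hρ4, zero_mul, add_zero] at h11
  exact h11

/-- The relation modulo `8`: the constant. -/
theorem mod8R (hRU : Stmt_RU) (ρ : integralClosure ℤ ℂ →+* AlgebraicClosure (ZMod 2))
    {q n : ℕ} (hq : Odd q) (a v : ℕ) (γ : ℂ) : ∃ c' : AlgebraicClosure (ZMod 2),
    ∀ (Z : Finset ℂ) (e : ℂ → ℕ) (B W : ℂ → integralClosure ℤ ℂ), Sol q n a v γ Z e B W →
      ∑ z ∈ Z, (e z : AlgebraicClosure (ZMod 2)) * (ρ (W z) + ρ (W z) ^ 2) =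
        ((∑ z ∈ Z, e z : ℕ) : AlgebraicClosure (ZMod 2)) *
        ((kap (q ^ n) : ℕ) : AlgebraicClosure (ZMod 2)) + c' := by
  by_cases hex : ∃ (Z : Finset ℂ) (e : ℂ → ℕ) (B W : ℂ → integralClosure ℤ ℂ),
      Sol q n a v γ Z e B W
  · obtain ⟨Z₀, e₀, B₀, W₀, h₀⟩ := hex
    obtain ⟨hγ, S₀, R₀, hS₀, hR₀, hS₀0, hR₀0, L₀, hL₀, hrel₀⟩ := sol_data ρ hq h₀
    refine ⟨ρ S₀ - ρ R₀, ?_⟩
    intro Z e B W h
    obtain ⟨-, S₁, R₁, hS₁, hR₁, hS₁0, hR₁0, L₁, hL₁, hrel₁⟩ := sol_data ρ hq h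
    have hq0 : (q : ℂ) ^ (n * a) ≠ 0 := by
      refine pow_ne_zero _ ?_
      have : q ≠ 0 := hq.pos.ne'
      exact_mod_cast this
    have h2 := sol_two hRU ρ (pow_ne_zero (2 * n) hγ) hq0 hR₀0 hS₁0 hL₀ hL₁ hrel₀ hrel₁
    rw [← hS₁, ← hR₁]
    linear_combination -h2
  · exact ⟨0, fun Z e B W h => absurd ⟨Z, e, B, W, h⟩ hex⟩

end Pool.Agent.Work.T3.MOD8R

namespace Pool.Agent.Work.T3

open Finset Polynomial Pool.Agent.Work.MP_223b32_ag Pool.Agent.Work.TC Pool.Agent.Work.TC.MOD8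
  MOD8R

theorem stmt_MOD8R (hRU : Stmt_RU) : Stmt_MOD8R := by
  classical
  intro ρ N q _ hq a γ
  choose c' hc' using fun v : ℕ => mod8R hRU ρ (n := N + 1) hq a v γ
  refine ⟨c', ?_⟩
  intro T r β β' w hβ' hw hρw hρ1 hinj hpair s hs M hM hrel
  by_cases hbal : ∀ t i, s.count ((q : ℂ) / β t i) = s.count (β t i)
  · exact Or.inl hbal
  right
  push Not at hbal
  obtain ⟨t0, i0, hne⟩ := hbal
  have hq0 : (q : ℂ) ≠ 0 := by
    have : q ≠ 0 := hq.pos.ne'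
    exact_mod_cast this
  set Z : Finset ℂ := univ.image fun p : Fin T × Fin N => β p.1 p.2 with hZ
  have hZmem : ∀ t i, β t i ∈ Z := fun t i => mem_image.2 ⟨(t, i), mem_univ _, rfl⟩
  have hZ0 : ∀ z ∈ Z, z ≠ 0 := by
    intro z hz h0
    obtain ⟨⟨t, i⟩, -, rfl⟩ := mem_image.1 hz
    obtain ⟨j, hj⟩ := hpair t i
    simp only at h0
    rw [h0, zero_mul] at hj
    exact hq0 hj.symm
  have hdiv : ∀ t i j, β t i * β t j = q → (q : ℂ) / β t i = β t j := by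
    intro t i j h
    rw [← h, mul_div_cancel_left₀ _ (hZ0 _ (hZmem t i))]
  have hσ : ∀ z ∈ Z, (q : ℂ) / z ∈ Z := by
    intro z hz
    obtain ⟨⟨t, i⟩, -, rfl⟩ := mem_image.1 hz
    obtain ⟨j, hj⟩ := hpair t i
    rw [hdiv t i j hj]
    exact hZmem t j
  have hsZ : ∀ z ∈ s, z ∈ Z := by
    intro z hz
    obtain ⟨t, i, rfl⟩ := hs z hz
    exact hZmem t i
  -- a choice of indices
  have hch : ∀ z : ℂ, ∃ p : Fin T × Fin N, z ∈ Z → β p.1 p.2 = z := by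
    intro z
    by_cases hz : z ∈ Z
    · obtain ⟨p, -, hp⟩ := mem_image.1 hz
      exact ⟨p, fun _ => hp⟩
    · exact ⟨(t0, i0), fun h => absurd h hz⟩
  choose p hp using hch
  set d : ℂ → ℕ := fun z => s.count z - s.count ((q : ℂ) / z) with hd
  have hrel1 := MOD8R.relation hq.pos.ne' Z hσ hZ0 s hsZ hrel
  have hex : ∃ z ∈ Z, d z ≠ 0 := by
    obtain ⟨j, hj⟩ := hpair t0 i0
    rcases lt_or_gt_of_ne hne with h | h
    · exact ⟨β t0 i0, hZmem _ _, by simp only [hd]; omega⟩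
    · refine ⟨(q : ℂ) / β t0 i0, hσ _ (hZmem _ _), ?_⟩
      simp only [hd]
      rw [div_div_cancel₀ hq0]
      omega
  obtain ⟨v, e, hde, z1, hz1, hodd⟩ := exists_odd Z _ d le_rfl hex
  have hrel2 : (γ * (∏ z ∈ Z, z ^ e z) ^ 2 ^ v) ^ (2 * M) =
      (q : ℂ) ^ (M * (a + 2 ^ v * ∑ z ∈ Z, e z)) := by
    have h1 : ∏ z ∈ Z, z ^ (s.count z - s.count ((q : ℂ) / z)) =
        (∏ z ∈ Z, z ^ e z) ^ 2 ^ v := by
      rw [← prod_pow]
      refine prod_congr rfl fun z hz => ?_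
      have h2 := hde z hz
      simp only [hd] at h2
      rw [h2, mul_comm, pow_mul]
    have h3 : ∑ z ∈ Z, (s.count z - s.count ((q : ℂ) / z)) = 2 ^ v * ∑ z ∈ Z, e z := by
      rw [mul_sum]
      exact sum_congr rfl fun z hz => hde z hz
    rw [h1, h3] at hrel1
    exact hrel1
  have hmod := hc' v Z e (fun z => β' (p z).1 (p z).2)
    (fun z => w (p z).1 (p z).2) ⟨fun z hz => by
      show ((β' (p z).1 (p z).2 : integralClosure ℤ ℂ) : ℂ) = z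
      rw [hβ', hp z hz], fun z hz => hw _ _, M, hM, hrel2⟩
  -- the odd part
  set X1 : Finset ℂ := Z.filter fun z => Odd (e z) with hX1
  have hcast : ∀ (a : ℕ), (a : AlgebraicClosure (ZMod 2)) = if Odd a then 1 else 0 := by
    intro a
    rw [CharTwo.natCast_eq_ite]
    by_cases h : Even a
    · rw [if_pos h, if_neg (Nat.not_odd_iff_even.2 h)]
    · rw [if_neg h, if_pos (Nat.not_even_iff_odd.1 h)]
  have hsumodd : ∀ F : ℂ → AlgebraicClosure (ZMod 2),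
      ∑ z ∈ Z, (e z : AlgebraicClosure (ZMod 2)) * F z = ∑ z ∈ X1, F z := by
    intro F
    rw [hX1, sum_filter]
    refine sum_congr rfl fun z _ => ?_
    rw [hcast]
    split_ifs <;> simp
  set R : ℂ → AlgebraicClosure (ZMod 2) := fun z => ρ (β' (p z).1 (p z).2) with hR
  set I : Fin T → Finset (AlgebraicClosure (ZMod 2)) :=
    fun t => (X1.filter fun z => (p z).1 = t).image R with hI
  -- two eigenvalues of one curve with the same reduction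
  have hinjR : ∀ t, Set.InjOn R (X1.filter fun z => (p z).1 = t) := by
    intro t x hx y hy hxy
    rw [mem_coe, mem_filter] at hx hy
    have hxZ : x ∈ Z := (mem_filter.1 hx.1).1
    have hyZ : y ∈ Z := (mem_filter.1 hy.1).1
    have h1 : ρ (β' t (p x).2) = ρ (β' t (p y).2) := by
      have h2 := hxy
      simp only [hR] at h2
      rw [hx.2, hy.2] at h2
      exact h2
    have h3 := hinj t h1
    rw [← hp x hxZ, ← hp y hyZ, hx.2, hy.2, h3]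
  have hIcard : ∀ t, (I t).card = (X1.filter fun z => (p z).1 = t).card := fun t =>
    card_image_of_injOn (hinjR t)
  have hcardX : ∑ t, (I t).card = X1.card := by
    rw [card_eq_sum_card_fiberwise (f := fun z => (p z).1) (t := univ)
      (fun _ _ => mem_coe.2 (mem_univ _))]
    exact sum_congr rfl fun t _ => hIcard t
  refine ⟨v, I, ?_, ⟨(p z1).1, ?_⟩, ?_, ?_, ?_⟩
  · -- the exponent of `2`
    have h1 := hde z1 hz1
    have h2 : 2 ^ v * 1 ≤ 2 ^ v * e z1 := Nat.mul_le_mul_left _ hodd.pos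
    simp only [hd] at h1
    have h3 := Multiset.count_le_card z1 s
    omega
  · refine ⟨R z1, mem_image.2 ⟨z1, mem_filter.2 ⟨mem_filter.2 ⟨hz1, hodd⟩, rfl⟩, rfl⟩⟩
  · -- the cardinality
    rw [hcardX, ← Multiset.sum_count_eq_card (s := Z) hsZ]
    calc X1.card = ∑ z ∈ X1, 1 := by rw [card_eq_sum_ones]
      _ ≤ ∑ z ∈ X1, s.count z := by
        refine sum_le_sum fun z hz => ?_
        obtain ⟨hzZ, hzodd⟩ := mem_filter.1 hz
        have h1 := hde z hzZ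
        have h2 : 0 < 2 ^ v * e z := Nat.mul_pos (by positivity) hzodd.pos
        simp only [hd] at h1
        omega
      _ ≤ ∑ z ∈ Z, s.count z :=
        sum_le_sum_of_subset (filter_subset _ _)
  · -- admissibility
    intro t ζ hζ
    obtain ⟨z, hz, rfl⟩ := mem_image.1 hζ
    obtain ⟨hzX, hzt⟩ := mem_filter.1 hz
    obtain ⟨hzZ, hzodd⟩ := mem_filter.1 hzX
    refine ⟨(hρ1 _ _).1, (hρ1 _ _).2, ?_⟩
    intro hmem
    obtain ⟨z', hz', hRz'⟩ := mem_image.1 hmem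
    obtain ⟨hzX', hzt'⟩ := mem_filter.1 hz'
    obtain ⟨hzZ', hzodd'⟩ := mem_filter.1 hzX'
    obtain ⟨j, hj⟩ := hpair (p z).1 (p z).2
    have h1 : β' (p z).1 (p z).2 * β' (p z).1 j = (q : integralClosure ℤ ℂ) := by
      apply Subtype.ext
      push_cast
      rw [hβ', hβ', hj]
    have h2 : R z * ρ (β' (p z).1 j) = 1 := by
      simp only [hR]
      rw [← map_mul, h1, map_natCast, hcast, if_pos hq]
    have h3 : ρ (β' (p z).1 j) = (R z)⁻¹ := eq_inv_of_mul_eq_one_right h2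
    have h4 : ρ (β' (p z).1 (p z').2) = ρ (β' (p z).1 j) := by
      rw [h3, ← hRz']
      simp only [hR]
      rw [hzt, hzt']
    have h5 := hinj _ h4
    have h6 : z' = (q : ℂ) / z := by
      rw [← hp z hzZ, hdiv _ _ j hj, ← hp z' hzZ', hzt', ← hzt, h5]
    have h7 := hde z hzZ
    have h8 := hde z' hzZ'
    have h9 : 0 < 2 ^ v * e z := Nat.mul_pos (by positivity) hzodd.pos
    have h10 : 0 < 2 ^ v * e z' := Nat.mul_pos (by positivity) hzodd'.pos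
    simp only [hd] at h7 h8
    rw [h6, div_div_cancel₀ hq0] at h8
    rw [← h6] at h8 h7
    omega
  · -- the relation
    have h1 : ∀ t, ∑ ζ ∈ I t, (ZZ (N + 1) (r t) ζ + ZZ (N + 1) (r t) ζ ^ 2) =
        ∑ z ∈ X1.filter (fun z => (p z).1 = t),
          (ρ (w (p z).1 (p z).2) + ρ (w (p z).1 (p z).2) ^ 2) := by
      intro t
      simp only [hI]
      rw [sum_image (hinjR t)]
      refine sum_congr rfl fun z hz => ?_
      rw [hρw]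
      simp only [hR]
      rw [(mem_filter.1 hz).2]
    rw [sum_congr rfl fun t _ => h1 t, sum_fiberwise, ← hsumodd, hmod, ← sum_mul, hcardX]
    have h2 : ((∑ z ∈ Z, e z : ℕ) : AlgebraicClosure (ZMod 2)) = (X1.card : ℕ) := by
      push_cast
      have h3 := hsumodd fun _ => 1
      simp only [mul_one, sum_const, nsmul_eq_mul] at h3
      exact h3
    rw [h2]
    push_cast
    rfl

end Pool.Agent.Work.T3
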